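import Pool.Agent.H67.VW.Grid

/-!
Goldston's lower bound for the variance of the number of primes in short intervals, which he proved in
1995 assuming the generalized Riemann hypothesis, without any hypothesis: in his full range
`H ≤ X ^ (1 / 3 - η)` and with his constant `(1 / 2) log (X / H ^ 3)`, for variable lengths `H(n)` and
around an arbitrary mean value function which is monotone or of bounded variation.
-/

namespace Pool.Agent.Results.MP_31d0eb_nt.GoldstonVariance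

/-- For every `η > 0` and every `K` there is `X₀` such that for all integers `X ≥ X₀`, for every
function `H` with values in the positive integers, nondecreasing on `[X, 2 X]`, with
`H (2 X) ≤ X ^ (1 / 3 - η)`, and for every real function `M` which on `[X, 2 X]` is nondecreasing, or
nonincreasing, or of total variation at most `X ^ (1 / 2)`, the sum over `X < n ≤ 2 X` of
`(π(n, H(n)) - M(n)) ^ 2` is at least `(1 / 2 - η) X H(X) log (X / H(2 X) ^ 3) / (log X) ^ 2`, and, if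
`X H(2 X) ≤ K ∑ H(n)`, at least `(1 / 2 - η) (∑ H(n)) log (X / H(2 X) ^ 3) / (log X) ^ 2`, where
`π(n, H)` is the number of primes in `(n, n + H]` and `∑ H(n)` is the sum over `X < n ≤ 2 X`. -/
theorem result : ∀ η K : ℝ, 0 < η → ∃ X₀ : ℕ, ∀ X : ℕ, X₀ ≤ X → ∀ H : ℕ → ℕ,
    MonotoneOn H (Set.Icc X (2 * X)) → 1 ≤ H X → (H (2 * X) : ℝ) ≤ (X : ℝ) ^ (1 / 3 - η) →
    ∀ M : ℕ → ℝ,
    (MonotoneOn M (Set.Icc X (2 * X)) ∨ AntitoneOn M (Set.Icc X (2 * X)) ∨
      ∑ n ∈ Finset.Ico X (2 * X), |M (n + 1) - M n| ≤ (X : ℝ) ^ (1 / 2 : ℝ)) →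
    (1 / 2 - η) * ((X : ℝ) * H X) * Real.log (X / (H (2 * X) : ℝ) ^ 3) / Real.log X ^ 2 ≤
      ∑ n ∈ Finset.Ioc X (2 * X),
        ((((Finset.Ioc n (n + H n)).filter Nat.Prime).card : ℝ) - M n) ^ 2 ∧
    ((X : ℝ) * H (2 * X) ≤ K * ∑ n ∈ Finset.Ioc X (2 * X), (H n : ℝ) →
      (1 / 2 - η) * (∑ n ∈ Finset.Ioc X (2 * X), (H n : ℝ)) *
        Real.log (X / (H (2 * X) : ℝ) ^ 3) / Real.log X ^ 2 ≤
      ∑ n ∈ Finset.Ioc X (2 * X),
        ((((Finset.Ioc n (n + H n)).filter Nat.Prime).card : ℝ) - M n) ^ 2) :=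
  Pool.Agent.H67.VW.final4

end Pool.Agent.Results.MP_31d0eb_nt.GoldstonVariance
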