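import Pool.Agent.H48.WP.Plain

/-!
Primes in short intervals: errors of (nearly) square root size at every exponent.

The first clause: in every window of exponents `[θ₀, (1 + θ₀) / (3 - θ₀)]` there is one fixed exponent `ϑ` at which the
variance has the conjectured size up to `X ^ ε` for arbitrarily large `X`, with the bound which follows for all others.
The second clause: every exponent, with `X` localized.
-/

set_option autoImplicit false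

namespace Pool.Agent.Results.MP_31d0eb_nt.VarianceAllLengths

theorem result :
    (∀ θ₀ : ℝ, 0 ≤ θ₀ → θ₀ < 1 → ∃ ϑ : ℝ, θ₀ ≤ ϑ ∧ ϑ ≤ (1 + θ₀) / (3 - θ₀) ∧
      ∀ ε : ℝ, 0 < ε → ∀ Y : ℝ, ∃ X : ℕ, Y ≤ X ∧ ∀ θ : ℝ, 0 ≤ θ → θ ≤ 1 → ∃ H : ℕ,
        (X : ℝ) ^ θ / 2 ≤ H ∧ (H : ℝ) ≤ 2 * (X : ℝ) ^ θ ∧
        (X : ℝ) ^ (1 + θ - |θ - ϑ| - ε) ≤
          ∑ n ∈ Finset.Ioc X (4 * X),
            ((((Finset.Ioc n (n + H)).filter Nat.Prime).card : ℝ) -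
              ∫ t in (n : ℝ)..(n + H : ℝ), 1 / Real.log t) ^ 2) ∧
    (∀ θ : ℝ, 1 / 6 ≤ θ → θ < 1 → ∀ ε : ℝ, 0 < ε → ∃ Y₀ : ℝ, ∀ Y : ℝ, Y₀ ≤ Y → ∃ X H : ℕ,
        Y ≤ X ∧ (X : ℝ) ≤ Y ^ (2 - θ) ∧
        (X : ℝ) ^ θ / 2 ≤ H ∧ (H : ℝ) ≤ 2 * (X : ℝ) ^ θ ∧
        (X : ℝ) ^ (1 + θ - (1 - θ) ^ 2 / 4 - ε) ≤
          ∑ n ∈ Finset.Ioc X (4 * X),
            ((((Finset.Ioc n (n + H)).filter Nat.Prime).card : ℝ) -
              ∫ t in (n : ℝ)..(n + H : ℝ), 1 / Real.log t) ^ 2) :=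
  ⟨Pool.Agent.H48.WP.fixc, Pool.Agent.H48.WP.every⟩

end Pool.Agent.Results.MP_31d0eb_nt.VarianceAllLengths
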